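import Pool.Agent.H8.TX.Targets
import Pool.Agent.H14.TD.EXT

/-! Row INX of the board tx_modules: the degree of an algebraic function (after H14/TD/INS). -/

set_option autoImplicit false

open MvPolynomial
open Pool.Agent.H12.ZD (pmap)
open Pool.Agent.H18.HIT Pool.Agent.H18.HX Pool.Agent.H18.VZ
open Pool.Agent.H8.ZA (HFam Const NA)
open Pool.Agent.H8.TD (lc dg Wsp Cop dh)
open Pool.Agent.H8.TX

namespace Pool.Agent.H78.TX

theorem not_alg {k K : Type} [Field k] [Field K] [Algebra k K] (htr : Algebra.trdeg k K = 3)
    (β γ : K) (h : Algebra.IsAlgebraic (IntermediateField.adjoin k ({β, γ} : Set K)) K) :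
    False := by
  have hr : Set.range ![β, γ] = ({β, γ} : Set K) := by
    rw [Matrix.range_cons, Matrix.range_cons, Matrix.range_empty, Set.union_empty]
    rfl
  have h' : Algebra.IsAlgebraic (IntermediateField.adjoin k (Set.range ![β, γ])) K := by
    rw [hr]
    exact h
  have h1 := Pool.Agent.H14.TD.alg_trans ({β, γ} : Set K) ![β, γ] h' (fun i => by
    have h2 : ![β, γ] i ∈ ({β, γ} : Set K) := by
      rw [← hr]
      exact ⟨i, rfl⟩
    exact isAlgebraic_algebraMap
      (⟨_, Algebra.subset_adjoin h2⟩ : Algebra.adjoin k ({β, γ} : Set K)))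
  have h2 := Algebra.IsAlgebraic.trdeg_le_cardinalMk k ({β, γ} : Set K)
  have h4 := h2.trans Cardinal.mk_insert_le
  rw [htr, Cardinal.mk_singleton] at h4
  have h5 : ((3 : ℕ) : Cardinal.{0}) ≤ ((2 : ℕ) : Cardinal.{0}) := by
    calc ((3 : ℕ) : Cardinal.{0}) ≤ 1 + 1 := by exact_mod_cast h4
      _ = ((2 : ℕ) : Cardinal.{0}) := by
        push_cast
        exact one_add_one_eq_two
  have h6 : (3 : ℕ) ≤ 2 := by exact_mod_cast h5
  omega

theorem totalDegree_map_le' {σ R S : Type} [CommRing R] [CommRing S] (f : R →+* S)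
    (p : MvPolynomial σ R) : (MvPolynomial.map f p).totalDegree ≤ p.totalDegree := by
  classical
  exact Finset.sup_mono (MvPolynomial.support_map_subset f p)

theorem pf_INX (hPDA : T_PDA) (hADJ : Pool.Agent.H8.TD.T_ADJ) : T_INX := by
  intro k K _ _ _ _ a φ β γ z δ Y n Cf htr hBd hdeg hn hsum
  set κ := IntermediateField.adjoin k ({β, γ} : Set K) with hκ
  have hins : ∀ c : K, dg k {c, β, γ} = dg κ {c} := by
    intro c
    exact (hADJ k K ({β, γ} : Set K) c).symm
  rw [hins]
  by_cases hy : ∃ y : K, FiniteDimensional (IntermediateField.adjoin κ {y}) K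
  · have ht : ∃ y : K, Transcendental κ y := by
      by_contra hcon
      push Not at hcon
      refine not_alg htr β γ ⟨fun x => ?_⟩
      have := hcon x
      unfold Transcendental at this
      push Not at this
      exact this
    have hch : CharZero κ := charZero_of_injective_algebraMap (algebraMap k κ).injective
    refine hPDA k κ K a φ z Y δ n (fun j => MvPolynomial.map (algebraMap k κ) (Cf j)) hy ht
      (fun s => ?_) (fun j => ?_) ?_ ?_
    · rw [← hins]
      exact hBd s
    · exact (totalDegree_map_le' _ _).trans (hdeg j)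
    · rw [MvPolynomial.aeval_map_algebraMap]
      exact hn
    · simp only [MvPolynomial.aeval_map_algebraMap]
      exact hsum
  · have h1 : ¬ Module.Finite (IntermediateField.adjoin κ {z}) K := fun h => hy ⟨_, h⟩
    have h2 : dg κ {z} = 0 := by
      unfold dg
      exact Module.finrank_of_not_finite h1
    rw [h2]
    exact Nat.zero_le _

end Pool.Agent.H78.TX
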